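import Pool.Agent.MP_c69980_ag.H88.SE

/-!
The test functions and the selection of balls.
-/

set_option autoImplicit false

noncomputable section

namespace Pool.Agent.MP_c69980_ag.H88

open Real Set Filter Topology MeasureTheory Metric H4
open scoped ENNReal

lemma gg_off {ρ a h : ℝ} (hρ : 0 < ρ) (hh : 0 < h) (ha : 1 + h ≤ a) (hr : rr ρ a < 1 / 2) (z : ℂ)
    (hz : 1 / 2 ≤ ‖z‖) : gg ρ a h z = 0 := gg_zero hρ hh ha (hr.le.trans hz)

lemma gg_int {ν : ℂ → ℝ} {ρ a h : ℝ} (hν : Den (ball 0 1) ν) (hρ : 0 < ρ) (hh : 0 < h)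
    (ha : 1 + h ≤ a) : Integrable (gg ρ a h) (ms ν) :=
  (mx_int hν hρ a).mono' (gg_cont hρ a h).aestronglyMeasurable (ae_of_all _ fun z =>
    (norm_of_nonneg (gg_nonneg hh ha z)).trans_le (gg_le hh ha z))

theorem setup (hL : LapRuleStmt) : SetupStmt := by
  obtain ⟨M, hM, hb⟩ := sd_bd
  refine ⟨8 * π * M, fun ν ρ ε hε H hρ => ?_⟩
  choose x h T x2 hh hT hR using fun k => reg (H k).1 (H k).2.1 hε (H k).2.2
  have hl : Tendsto (fun k => lv (ρ k)) atTop atTop :=
    tendsto_atTop_add_const_left _ 2 (tendsto_neg_atBot_atTop.comp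
      ((tendsto_log_nhdsGT_zero.comp (tendsto_nhdsWithin_iff.2 ⟨by simpa using hρ.const_mul 4,
        .of_forall fun k => mul_pos four_pos (H k).2.1⟩)).const_mul_atBot two_pos))
  have hE : ∀ K : ℝ, ∀ᶠ k in atTop, Reg (ν k) (ρ k) ε (x k) (h k) (T k) ∧ K ≤ x k ∧
      K ≤ T k * h k ^ 2 ∧ T k * h k ^ 2 ≤ T k * h k ∧ T k * h k ≤ T k := fun K => by
    filter_upwards [hl.eventually_ge_atTop 17, hl.eventually_ge_atTop K,
      hl.eventually_ge_atTop (10000 * K / ε + 8)] with k k1 k2 k3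
    obtain ⟨a1, a2, a3, a4, a5, a6, a7, a8⟩ := hR k k1
    have k4 := (div_le_iff₀ hε).1 (le_sub_iff_add_le.2 k3)
    have k5 := mul_pos (hT k) (hh k)
    exact ⟨hR k k1, k2.trans a1, by linarith, by nlinarith, by nlinarith [hT k]⟩
  refine ⟨fun k => gg (ρ k) (x k + h k) (h k), fun k => gg (ρ k) (x k + h k + 2 * h k) (h k), T,
    tendsto_atTop.2 fun K => (hE K).mono fun k ⟨_, _, k1, k2, k3⟩ => by linarith,
    fun k => ⟨hT k, gg_nonneg (hh k) (by linarith [x2 k, hh k])⟩,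
    (hE (64 * M)).mono fun k ⟨⟨a1, a2, a3, a4, a5, a6, a7, a8⟩, _, k1, _⟩ => ?_,
    fun η hη => ?_, fun S η hS hη hf => ?_⟩
  · obtain ⟨hν, hρ, -⟩ := H k
    have h0 := hh k
    have h2 := x2 k
    have b1 : 1 + h k ≤ x k + h k := by linarith
    have b2 : 1 + h k ≤ x k + h k + 2 * h k := by linarith
    have r1 : rr (ρ k) (x k + h k) < 1 / 2 := ((rr_sm hρ).monotone (by linarith)).trans_lt a4
    have r2 : rr (ρ k) (x k + h k + 2 * h k) < 1 / 2 :=
      ((rr_sm hρ).monotone (by linarith)).trans_lt a4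
    refine ⟨gg_tf hL hρ h0 b1 hM hb r1, gg_tf hL hρ h0 b2 hM hb r2, fun z => (gg_le h0 b1 z).trans
      (max_le (le_trans (by linarith) (le_gg h0 b2 z)) (gg_nonneg h0 b2 z)), ?_, ?_,
      fun z hz => gg_lap_le hL hρ h0 b1 hM hb (by rwa [add_sub_cancel_right]) k1 hz,
      gg_sig hL hρ h0 (by linarith)⟩
    · rw [ms_int hν (gg_off hρ h0 b1 r1), a5]
      exact integral_mono (mx_int hν hρ _) (gg_int hν hρ h0 b1) fun z =>
        max_le (le_trans (by linarith) (le_gg h0 b1 z)) (gg_nonneg h0 b1 z)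
    · rw [ms_int hν (gg_off hρ h0 b2 r2)]
      exact (integral_mono (gg_int hν hρ h0 b2) (mx_int hν hρ _) (gg_le h0 b2)).trans
        ((ta_mono hν hρ (by linarith)).trans a6)
  · obtain ⟨W, hW⟩ : ∃ W, W = 16 * π / (ε * η) := ⟨_, rfl⟩
    have W0 : 0 < W := by rw [hW]; positivity
    filter_upwards [hE (1 + W), hE (8 * π * W / η)] with k
      ⟨⟨a1, a2, a3, a4, a5, a6, a7, a8⟩, k1, _⟩ ⟨_, _, k2, k3, _⟩
    have h0 := hh k
    obtain ⟨Y, y1, y2, y3, y4⟩ := gg_grad_le hL (H k).2.1 h0 (a := x k + h k)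
      (by linarith [x2 k]) W0 (by linarith)
    refine ⟨Y, y1, y2, y3.trans_le ?_, y4⟩
    have e1 : 4 * π * ((x k + h k) / W) = η * (ε * (x k + h k)) / 4 := by
      rw [hW]
      field_simp
      ring
    have e2 : 4 * π * (W / h k) ≤ η * T k / 2 := by
      rw [← mul_div_assoc, div_le_iff₀ h0]
      linarith [(div_le_iff₀ hη).1 (k2.trans k3)]
    have e3 : ε * (x k + h k) ≤ 2 * T k := by nlinarith
    nlinarith [mul_le_mul_of_nonneg_left e3 hη.le]
  · have hN : ∀ N : ℕ, ∃ᶠ k in atTop, Sel (ms (ν k)) (S k) (η * ε / 24) η (N + 1) := fun N => by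
      refine (hf.and_eventually ((hE (4 * (N + 1 : ℕ) + 3)).and (hE (512 * (N + 1 : ℕ) ^ 2 *
        (4 * (N + 1 : ℕ) + 2) * ε * exp (4 * (N + 1 : ℕ) + 1))))).mono
        fun k ⟨k0, ⟨⟨a1, a2, a3, a4, a5, a6, a7, a8⟩, k1, _⟩, _, _, k2, _⟩ => ?_
      obtain ⟨hν, hρ, -⟩ := H k
      have := ms_fin hν
      have h0 := hh k
      have b2 : 1 + h k ≤ x k + h k + 2 * h k := by linarith [x2 k]
      refine select (a := x k + h k + 2 * h k) (h := h k) (T := T k) _ hρ h0 (by linarith) hη hε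
        le_add_self (a3.trans ((rr_sm hρ).monotone (by linarith)))
        (((rr_sm hρ).monotone (by linarith)).trans a4.le) (by linarith) (by linarith) k2 ?_
        (k0.trans_le ?_)
      · rw [ta_lin hν hρ]
        exact ENNReal.ofReal_le_ofReal ((ta_mono hν hρ (by linarith)).trans a6)
      · rw [ms_lin hν (gg_cont hρ _ _) (gg_nonneg h0 b2) (gg_off hρ h0 b2
          (((rr_sm hρ).monotone (by linarith)).trans_lt a4)) (hS k)]
        exact lintegral_mono fun z => (ENNReal.ofReal_le_ofReal (gg_le h0 b2 z)).trans_eq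
          (by simp [ENNReal.ofReal_max])
    obtain ⟨φ, hφ, hs⟩ := extraction_forall_of_frequently hN
    choose c r r0 s0 s1 s2 using hs
    have hB : ∀ k (t : ℕ), t ≤ k + 1 → ball (c k) (r k * t) ⊆ ball 0 (3 / 4) := fun k t ht =>
      (ball_subset_ball (mul_le_mul_of_nonneg_left (Nat.cast_le.2 ht) (r0 k).le)).trans (s0 k)
    have e : ∀ k, mu (ν (φ k)) (S (φ k) ∩ ball (c k) (r k)) =
        ms (ν (φ k)) (ball (c k) (r k) ∩ S (φ k)) := fun k => by
      rw [inter_comm, ms_eq (measurableSet_ball.inter (hS _))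
        (inter_subset_left.trans (by simpa using hB k 1 le_add_self))]
    refine ⟨φ, c, r, fun n => (n + 1 : ℕ), η * ε / 24, hφ, by positivity,
      tendsto_natCast_atTop_atTop.comp (tendsto_add_atTop_nat 1), fun k => ⟨r0 k,
        (s0 k).trans (ball_subset_ball (by norm_num)), (s1 k).trans_eq (e k).symm⟩,
      fun t => ⟨La η t, (eventually_ge_atTop t).mono fun k hk => ?_⟩⟩
    rw [e, ← ms_eq measurableSet_ball (hB k t (by omega))]
    exact s2 k t (by omega)

end Pool.Agent.MP_c69980_ag.H88
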