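import Pool.Agent.MP_c69980_ag.H4.SpecA

/-!
Functions of one variable used in the test functions.
-/

set_option autoImplicit false

noncomputable section

namespace Pool.Agent.MP_c69980_ag.H88

open Real Set Filter Topology MeasureTheory
open scoped ContDiff

/-- A smooth version of the positive part. -/
def ps (t : ℝ) : ℝ := ∫ s in (0 : ℝ)..t, smoothTransition s

/-- Its second derivative. -/
def sd (t : ℝ) : ℝ := deriv smoothTransition t

/-- A smooth version of `max t 1`. -/
def uu (t : ℝ) : ℝ := t + ps (1 - t)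

/-- The profile of the test functions. -/
def Th (a h t : ℝ) : ℝ := h * ps ((a - t) / h) - ps (1 - t)

variable {a h s t : ℝ}

lemma ps_hd (t : ℝ) : HasDerivAt ps (smoothTransition t) t :=
  (smoothTransition.continuous.integral_hasStrictDerivAt 0 t).hasDerivAt

lemma ps_cd : ContDiff ℝ ∞ ps :=
  contDiff_infty_iff_deriv.2 ⟨fun t => (ps_hd t).differentiableAt, by
    rw [show deriv ps = smoothTransition from funext fun t => (ps_hd t).deriv]
    exact smoothTransition.contDiff⟩

lemma ps_eq (s t : ℝ) : ps t - ps s = ∫ x in s..t, smoothTransition x :=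
  intervalIntegral.integral_interval_sub_left (smoothTransition.continuous.intervalIntegrable _ _)
    (smoothTransition.continuous.intervalIntegrable _ _)

lemma ps_sub (H : s ≤ t) : 0 ≤ ps t - ps s ∧ ps t - ps s ≤ t - s := by
  rw [ps_eq]
  refine ⟨intervalIntegral.integral_nonneg H fun x _ => smoothTransition.nonneg x, ?_⟩
  have := intervalIntegral.integral_mono_on (μ := volume) H
    (smoothTransition.continuous.intervalIntegrable _ _)
    (continuous_const.intervalIntegrable _ _) fun x _ => smoothTransition.le_one x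
  simpa using this

lemma ps_zero (H : t ≤ 0) : ps t = 0 := by
  rw [ps, intervalIntegral.integral_congr (g := fun _ => 0)]
  · simp
  · intro x hx
    rw [uIcc_of_ge H] at hx
    exact smoothTransition.zero_of_nonpos hx.2

lemma ps_lin (H : 1 ≤ t) : ps t = ps 1 + (t - 1) := by
  have : ps t - ps 1 = t - 1 := by
    rw [ps_eq, intervalIntegral.integral_congr (g := fun _ => 1)]
    · simp
    · intro x hx
      rw [uIcc_of_le H] at hx
      exact smoothTransition.one_of_one_le hx.1
  linarith

lemma ps_nonneg (t : ℝ) : 0 ≤ ps t := by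
  rcases le_total t 0 with H | H
  · rw [ps_zero H]
  · have := (ps_sub H).1
    rwa [ps_zero le_rfl, sub_zero] at this

lemma ps_le (H : 0 ≤ t) : ps t ≤ t := by
  have := (ps_sub H).2
  rwa [ps_zero le_rfl, sub_zero, sub_zero] at this

lemma le_ps (t : ℝ) : t - 1 ≤ ps t := by
  rcases le_total t 1 with H | H
  · linarith [ps_nonneg t]
  · linarith [ps_lin H, ps_nonneg 1]

lemma le_uu (t : ℝ) : t ≤ uu t := by rw [uu]; linarith [ps_nonneg (1 - t)]

lemma uu_nonneg (t : ℝ) : 0 ≤ uu t := by rw [uu]; linarith [le_ps (1 - t)]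

lemma uu_eq (H : 1 ≤ t) : uu t = t := by rw [uu, ps_zero (by linarith), add_zero]

lemma uu_le (H : t ≤ 1) : uu t ≤ 1 := by
  rw [uu]; linarith [ps_le (t := 1 - t) (by linarith)]

lemma uu_le' (H : t ≤ s) (hs : 1 ≤ s) : uu t ≤ s := by
  rcases le_total t 1 with H' | H'
  · linarith [uu_le H']
  · rwa [uu_eq H']

lemma uu_cont : Continuous uu := continuous_id.add (ps_cd.continuous.comp (by fun_prop))

lemma Th_eq (hh : 0 < h) (ha : 1 + h ≤ a) (t : ℝ) : Th a h t = h * ps ((a - uu t) / h) := by
  rcases le_total t 1 with H | H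
  · have h1 : 1 ≤ (a - t) / h := by rw [le_div_iff₀ hh]; linarith
    have h2 : 1 ≤ (a - uu t) / h := by rw [le_div_iff₀ hh]; linarith [uu_le H]
    rw [Th, ps_lin h1, ps_lin h2, uu]
    field_simp
    ring
  · rw [Th, uu_eq H, ps_zero (t := 1 - t) (by linarith), sub_zero]

lemma Th_nonneg (hh : 0 < h) (ha : 1 + h ≤ a) (t : ℝ) : 0 ≤ Th a h t := by
  rw [Th_eq hh ha]
  exact mul_nonneg hh.le (ps_nonneg _)

lemma le_Th (hh : 0 < h) (ha : 1 + h ≤ a) (t : ℝ) : a - h - uu t ≤ Th a h t := by
  rw [Th_eq hh ha]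
  have := mul_le_mul_of_nonneg_left (le_ps ((a - uu t) / h)) hh.le
  rwa [mul_sub, mul_div_cancel₀ _ hh.ne', mul_one, sub_right_comm] at this

lemma Th_le (hh : 0 < h) (ha : 1 + h ≤ a) (t : ℝ) : Th a h t ≤ max (a - uu t) 0 := by
  rw [Th_eq hh ha]
  rcases le_total (a - uu t) 0 with H | H
  · rw [ps_zero (div_nonpos_of_nonpos_of_nonneg H hh.le), mul_zero, max_eq_right H]
  · have := mul_le_mul_of_nonneg_left (ps_le (div_nonneg H hh.le)) hh.le
    rw [mul_div_cancel₀ _ hh.ne'] at this
    exact this.trans (le_max_left _ _)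

lemma Th_cd (a h : ℝ) : ContDiff ℝ ∞ (Th a h) :=
  (contDiff_const.mul (ps_cd.comp (by fun_prop))).sub (ps_cd.comp (by fun_prop))

lemma Th_d (hh : 0 < h) : deriv (Th a h) =
    fun t => smoothTransition (1 - t) - smoothTransition ((a - t) / h) := funext fun t => by
  have h1 := ((ps_hd ((a - t) / h)).comp t
    (((hasDerivAt_id t).const_sub a).div_const h)).const_mul h
  have h2 := (ps_hd (1 - t)).comp t ((hasDerivAt_id t).const_sub 1)
  rw [show deriv (Th a h) t = _ from (h1.sub h2).deriv]
  field_simp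
  ring

lemma Th_dd (hh : 0 < h) (t : ℝ) :
    deriv (deriv (Th a h)) t = sd ((a - t) / h) / h - sd (1 - t) := by
  have hd : ∀ x, HasDerivAt smoothTransition (sd x) x := fun x =>
    ((smoothTransition.contDiff (n := 1)).differentiable (by simp) x).hasDerivAt
  have h1 := (hd ((a - t) / h)).comp t (((hasDerivAt_id t).const_sub a).div_const h)
  have h2 := (hd (1 - t)).comp t ((hasDerivAt_id t).const_sub 1)
  rw [Th_d hh]
  exact (h2.sub h1).deriv.trans (by ring)

lemma Th_const (hh : 0 < h) (ha : 1 + h ≤ a) (H : t ≤ 0) : Th a h t = Th a h 0 := by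
  have e : ∀ t : ℝ, t ≤ 0 → uu t = ps 1 := fun t H => by
    rw [uu, ps_lin (by linarith)]; ring
  rw [Th_eq hh ha, Th_eq hh ha, e t H, e 0 le_rfl]

lemma sd_nonneg (t : ℝ) : 0 ≤ sd t := smoothTransition.monotone.deriv_nonneg

lemma sd_cont : Continuous sd := (smoothTransition.contDiff (n := 1)).continuous_deriv le_rfl

lemma sd_supp (H : sd t ≠ 0) : 0 ≤ t ∧ t ≤ 1 := by
  constructor
  · by_contra hn
    refine H ((EventuallyEq.deriv_eq (f := fun _ => 0) ?_).trans (deriv_const _ _))
    filter_upwards [gt_mem_nhds (not_le.1 hn)] with x hx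
    exact smoothTransition.zero_of_nonpos hx.le
  · by_contra hn
    refine H ((EventuallyEq.deriv_eq (f := fun _ => 1) ?_).trans (deriv_const _ _))
    filter_upwards [lt_mem_nhds (not_le.1 hn)] with x hx
    exact smoothTransition.one_of_one_le hx.le

lemma sd_bd : ∃ M, 0 < M ∧ ∀ t, sd t ≤ M := by
  obtain ⟨M, hM⟩ := (isCompact_Icc (a := (0 : ℝ)) (b := 1)).bddAbove_image sd_cont.continuousOn
  refine ⟨max M 1, by positivity, fun t => ?_⟩
  by_cases H : sd t = 0
  · rw [H]; positivity
  · exact (hM ⟨t, sd_supp H, rfl⟩).trans (le_max_left _ _)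

end Pool.Agent.MP_c69980_ag.H88
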