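import Pool.Agent.MP_c69980_ag.H88.SA

/-!
Radial test functions.
-/

set_option autoImplicit false

noncomputable section

namespace Pool.Agent.MP_c69980_ag.H88

open Real Set Filter Topology MeasureTheory Metric H4
open scoped ContDiff

/-- The radius of the level `s`. -/
def rr (ρ s : ℝ) : ℝ := ρ * exp ((s - 2) / 2)

/-- The level of a point. -/
def Lg (ρ : ℝ) (z : ℂ) : ℝ := 2 * log (max ‖z‖ (rr ρ (-1)) / ρ) + 2

/-- The density `4 / |z|^2` on an annulus. -/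
def Kn (ρ α β : ℝ) : ℂ → ℝ :=
  indicator {z | rr ρ α ≤ ‖z‖ ∧ ‖z‖ ≤ rr ρ β} fun z => 4 / ‖z‖ ^ 2

variable {ρ a h s δ α β : ℝ} {z c : ℂ} {f g : ℂ → ℝ}

lemma rr_pos (hρ : 0 < ρ) (s : ℝ) : 0 < rr ρ s := mul_pos hρ (exp_pos _)

lemma rr_add (ρ s δ : ℝ) : rr ρ (s + δ) = rr ρ s * exp (δ / 2) := by
  rw [rr, rr, mul_assoc, ← exp_add]; ring_nf

lemma rr_two (ρ : ℝ) : rr ρ 2 = ρ := by simp [rr]

lemma rr_sm (hρ : 0 < ρ) : StrictMono (rr ρ) := fun _ _ h =>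
  mul_lt_mul_of_pos_left (exp_lt_exp.2 (by linarith)) hρ

lemma rr_Lg (hρ : 0 < ρ) (z : ℂ) : rr ρ (Lg ρ z) = max ‖z‖ (rr ρ (-1)) := by
  have h0 : 0 < max ‖z‖ (rr ρ (-1)) := lt_max_of_lt_right (rr_pos hρ _)
  rw [rr, Lg, add_sub_cancel_right, mul_div_cancel_left₀ _ two_ne_zero, exp_log (div_pos h0 hρ),
    mul_div_cancel₀ _ hρ.ne']

lemma Lg_le (hρ : 0 < ρ) (hs : -1 ≤ s) : Lg ρ z ≤ s ↔ ‖z‖ ≤ rr ρ s := by
  rw [← (rr_sm hρ).le_iff_le, rr_Lg hρ, max_le_iff, and_iff_left ((rr_sm hρ).monotone hs)]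

lemma Lg_lt (hρ : 0 < ρ) (hs : -1 < s) : Lg ρ z < s ↔ ‖z‖ < rr ρ s := by
  rw [← (rr_sm hρ).lt_iff_lt, rr_Lg hρ, max_lt_iff, and_iff_left (rr_sm hρ hs)]

lemma le_Lg (hρ : 0 < ρ) (hs : -1 < s) : s ≤ Lg ρ z ↔ rr ρ s ≤ ‖z‖ := by
  rw [← not_lt, Lg_lt hρ hs, not_lt]

lemma Lg_ge (hρ : 0 < ρ) (z : ℂ) : -1 ≤ Lg ρ z := by
  rw [← (rr_sm hρ).le_iff_le, rr_Lg hρ]
  exact le_max_right _ _

lemma Lg_cont (hρ : 0 < ρ) : Continuous (Lg ρ) :=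
  (continuous_const.mul (((continuous_norm.max continuous_const).div_const ρ).log fun _ =>
    (div_pos (lt_max_of_lt_right (rr_pos hρ _)) hρ).ne')).add continuous_const

lemma Lg_le_add (hρ : 0 < ρ) (hδ : 0 ≤ δ) (H : ‖z‖ ≤ ‖c‖ * exp (δ / 2)) :
    Lg ρ z ≤ Lg ρ c + δ := by
  rw [Lg_le hρ (by linarith [Lg_ge hρ c]), rr_add, rr_Lg hρ]
  exact H.trans (mul_le_mul_of_nonneg_right (le_max_left _ _) (exp_pos _).le)

lemma Lg_ev (hρ : 0 < ρ) (H : 0 ≤ Lg ρ z) :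
    z ≠ 0 ∧ Lg ρ =ᶠ[𝓝 z] fun w => log (‖w‖ ^ 2) + (2 - 2 * log ρ) := by
  have h1 : rr ρ (-1) < ‖z‖ :=
    (rr_sm hρ (by norm_num)).trans_le ((le_Lg hρ (by norm_num)).1 H)
  refine ⟨norm_pos_iff.1 ((rr_pos hρ _).trans h1), ?_⟩
  filter_upwards [continuous_norm.continuousAt.eventually (lt_mem_nhds h1)] with w hw
  rw [Lg, max_eq_left hw.le, log_div ((rr_pos hρ _).trans hw).ne' hρ.ne', log_pow]
  push_cast
  ring

lemma D_congr (H : f =ᶠ[𝓝 z] g) (v : ℂ) : D v f =ᶠ[𝓝 z] D v g :=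
  (H.fderiv (𝕜 := ℝ)).mono fun w hw => by simp only [D, hw]

lemma lap_congr (H : f =ᶠ[𝓝 z] g) : lap f z = lap g z := by
  rw [lap, lap, (D_congr (D_congr H _) _).eq_of_nhds, (D_congr (D_congr H _) _).eq_of_nhds]

lemma grad_congr (H : f =ᶠ[𝓝 z] g) : grad f z = grad g z := by
  rw [grad, grad, (D_congr H _).eq_of_nhds, (D_congr H _).eq_of_nhds]

lemma D_nsq (v : ℂ) : D v (fun w : ℂ => ‖w‖ ^ 2) =
    fun w => (2 * v.re) • Complex.reCLM w + (2 * v.im) • Complex.imCLM w :=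
  funext fun w => by
    rw [D, (hasStrictFDerivAt_norm_sq w).hasFDerivAt.fderiv]
    simp [Complex.inner]
    ring

lemma lap_nsq (z : ℂ) : lap (fun w : ℂ => ‖w‖ ^ 2) z = 4 := by
  have e : ∀ v : ℂ, D v (D v fun w : ℂ => ‖w‖ ^ 2) z = 2 * v.re * v.re + 2 * v.im * v.im :=
    fun v => by
      rw [D_nsq, D]
      refine (DFunLike.congr_fun ((Complex.reCLM.hasFDerivAt.const_smul
        (2 * v.re)).add (Complex.imCLM.hasFDerivAt.const_smul (2 * v.im))).fderiv v).trans ?_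
      simp
  rw [lap, e, e]
  norm_num

lemma grad_nsq (z : ℂ) : ‖grad (fun w : ℂ => ‖w‖ ^ 2) z‖ ^ 2 = 4 * ‖z‖ ^ 2 := by
  rw [grad, D_nsq, D_nsq, Complex.sq_norm, Complex.sq_norm, Complex.normSq_apply,
    Complex.normSq_apply]
  simp
  ring

lemma log_nsq (hL : LapRuleStmt) (hz : z ≠ 0) (k : ℝ) :
    ContDiffAt ℝ ∞ (fun w : ℂ => log (‖w‖ ^ 2) + k) z ∧
    lap (fun w : ℂ => log (‖w‖ ^ 2) + k) z = 0 ∧
    ‖grad (fun w : ℂ => log (‖w‖ ^ 2) + k) z‖ ^ 2 = 4 / ‖z‖ ^ 2 := by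
  have h0 : ‖z‖ ^ 2 ≠ 0 := by simpa using hz
  have h1 : ContDiff ℝ ∞ fun w : ℂ => ‖w‖ ^ 2 := contDiff_norm_sq ℝ
  have h2 : ContDiffAt ℝ 2 (fun w : ℂ => ‖w‖ ^ 2) z := (h1.of_le (by norm_cast)).contDiffAt
  obtain ⟨-, -, h3, h4, -⟩ := hL _ _ (fun s => log s + k) z h2 h2
    ((contDiffAt_log.2 h0).add contDiffAt_const)
  have e : deriv (fun s => log s + k) = fun s => s⁻¹ := funext fun s => by
    rw [deriv_add_const, deriv_log]
  rw [e] at h3 h4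
  refine ⟨(h1.contDiffAt.log h0).add contDiffAt_const, ?_, ?_⟩
  · rw [h3, lap_nsq, grad_nsq, deriv_inv]
    field_simp
    ring
  · rw [h4, norm_smul, mul_pow, grad_nsq, Real.norm_eq_abs, sq_abs]
    field_simp

lemma comp (hL : LapRuleStmt) (hρ : 0 < ρ) {Θ : ℝ → ℝ} (hΘ : ContDiff ℝ ∞ Θ)
    (h0 : ∀ t ≤ 0, Θ t = Θ 0) (z : ℂ) : ContDiffAt ℝ ∞ (fun w => Θ (Lg ρ w)) z ∧
      lap (fun w => Θ (Lg ρ w)) z = deriv (deriv Θ) (Lg ρ z) * (4 / ‖z‖ ^ 2) ∧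
      ‖grad (fun w => Θ (Lg ρ w)) z‖ ^ 2 = deriv Θ (Lg ρ z) ^ 2 * (4 / ‖z‖ ^ 2) := by
  rcases lt_or_ge (Lg ρ z) 0 with H | H
  · have e1 : Θ =ᶠ[𝓝 (Lg ρ z)] fun _ => Θ 0 := (gt_mem_nhds H).mono fun t ht => h0 t ht.le
    have e2 : (fun w => Θ (Lg ρ w)) =ᶠ[𝓝 z] fun _ => Θ 0 := (Lg_cont hρ).continuousAt.eventually e1
    have e3 : ∀ (v : ℂ) (k : ℝ), D v (fun _ => k) = fun _ => 0 := fun v k => funext fun _ => by
      simp [D]
    refine ⟨contDiffAt_const.congr_of_eventuallyEq e2, ?_, ?_⟩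
    · rw [lap_congr e2, e1.deriv.deriv_eq]
      simp [lap, e3]
    · rw [grad_congr e2, e1.deriv_eq]
      simp [grad, e3, Complex.sq_norm]
  · obtain ⟨hz, e⟩ := Lg_ev hρ H
    obtain ⟨c1, c2, c3⟩ := log_nsq hL hz (2 - 2 * log ρ)
    have c4 := c1.congr_of_eventuallyEq e
    have c5 : ContDiffAt ℝ 2 (Lg ρ) z := c4.of_le (by norm_cast)
    obtain ⟨-, -, h3, h4, -⟩ := hL _ _ Θ z c5 c5 (hΘ.of_le (by norm_cast)).contDiffAt
    refine ⟨hΘ.contDiffAt.comp z c4, ?_, ?_⟩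
    · rw [h3, lap_congr e, grad_congr e, c2, c3, mul_zero, zero_add]
    · rw [h4, norm_smul, mul_pow, grad_congr e, c3, Real.norm_eq_abs, sq_abs]

lemma Kn_nonneg (z : ℂ) : 0 ≤ Kn ρ α β z := indicator_nonneg (fun _ _ => by positivity) z

lemma Kn_eq (hρ : 0 < ρ) (h0 : 0 ≤ α) (h1 : α ≤ Lg ρ z) (h2 : Lg ρ z ≤ β) :
    Kn ρ α β z = 4 / ‖z‖ ^ 2 :=
  indicator_of_mem (s := {z | rr ρ α ≤ ‖z‖ ∧ ‖z‖ ≤ rr ρ β})
    ⟨(le_Lg hρ (by linarith)).1 h1, (Lg_le hρ (by linarith)).1 h2⟩ _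

lemma Kn_int (hρ : 0 < ρ) (α β : ℝ) : Integrable (Kn ρ α β) := by
  have hc : IsClosed {z : ℂ | rr ρ α ≤ ‖z‖ ∧ ‖z‖ ≤ rr ρ β} :=
    (isClosed_le continuous_const continuous_norm).inter
      (isClosed_le continuous_norm continuous_const)
  refine (integrable_indicator_iff hc.measurableSet).2 (ContinuousOn.integrableOn_compact
    ((isCompact_closedBall 0 (rr ρ β)).of_isClosed_subset hc fun z hz => by simpa using hz.2) ?_)
  exact continuousOn_const.div (by fun_prop) fun z hz =>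
    (pow_pos ((rr_pos hρ α).trans_le hz.1) 2).ne'

lemma Kn_integral (hρ : 0 < ρ) (H : α ≤ β) : ∫ z, Kn ρ α β z = 4 * π * (β - α) := by
  have h1 := rr_pos hρ α
  have h2 := (rr_sm hρ).monotone H
  have h3 : Icc (rr ρ α) (rr ρ β) ⊆ Ioi 0 := fun y hy => h1.trans_le hy.1
  have := integral_fun_norm_addHaar (volume : Measure ℂ)
    (indicator (Icc (rr ρ α) (rr ρ β)) fun y => 4 / y ^ 2)
  rw [show (∫ z, Kn ρ α β z) = _ from this, setIntegral_congr_fun measurableSet_Ioi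
    (g := indicator (Icc (rr ρ α) (rr ρ β)) fun y => 4 * y⁻¹), integral_indicator measurableSet_Icc,
    Measure.restrict_restrict measurableSet_Icc,
    inter_eq_left.2 h3, integral_Icc_eq_integral_Ioc,
    ← intervalIntegral.integral_of_le h2, intervalIntegral.integral_const_mul,
    integral_inv_of_pos h1 (h1.trans_le h2)]
  · have : rr ρ β / rr ρ α = exp ((β - α) / 2) := by
      rw [div_eq_iff h1.ne', mul_comm, ← rr_add, add_sub_cancel]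
    rw [this, log_exp]
    simp [Measure.real, Complex.volume_ball]
    ring
  · intro y hy
    have : y ≠ 0 := ne_of_gt hy
    by_cases hm : y ∈ Icc (rr ρ α) (rr ρ β)
    · simp only [indicator_of_mem hm, Complex.finrank_real_complex, smul_eq_mul]
      field_simp
      simp
    · simp [indicator_of_notMem hm]

end Pool.Agent.MP_c69980_ag.H88
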