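import Pool.Agent.MP_c69980_ag.H88.SB

/-!
The test functions and their derivatives.
-/

set_option autoImplicit false

noncomputable section

namespace Pool.Agent.MP_c69980_ag.H88

open Real Set Filter Topology MeasureTheory Metric H4
open scoped ContDiff

/-- The test function. -/
def gg (ρ a h : ℝ) (z : ℂ) : ℝ := Th a h (Lg ρ z)

/-- The smoothed level. -/
def ll (ρ : ℝ) (z : ℂ) : ℝ := uu (Lg ρ z)

variable {ρ a h M T W : ℝ} {z : ℂ}

lemma ll_cont (hρ : 0 < ρ) : Continuous (ll ρ) := uu_cont.comp (Lg_cont hρ)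

lemma gg_cont (hρ : 0 < ρ) (a h : ℝ) : Continuous (gg ρ a h) :=
  (Th_cd a h).continuous.comp (Lg_cont hρ)

lemma gg_nonneg (hh : 0 < h) (ha : 1 + h ≤ a) (z : ℂ) : 0 ≤ gg ρ a h z := Th_nonneg hh ha _

lemma le_gg (hh : 0 < h) (ha : 1 + h ≤ a) (z : ℂ) : a - h - ll ρ z ≤ gg ρ a h z := le_Th hh ha _

lemma gg_le (hh : 0 < h) (ha : 1 + h ≤ a) (z : ℂ) : gg ρ a h z ≤ max (a - ll ρ z) 0 :=
  Th_le hh ha _

lemma gg_zero (hρ : 0 < ρ) (hh : 0 < h) (ha : 1 + h ≤ a) (H : rr ρ a ≤ ‖z‖) : gg ρ a h z = 0 := by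
  have h1 := (le_Lg hρ (by linarith)).2 H
  refine le_antisymm ((gg_le hh ha z).trans (max_le ?_ le_rfl)) (gg_nonneg hh ha z)
  linarith [le_uu (Lg ρ z), show ll ρ z = uu (Lg ρ z) from rfl]

lemma gg_all (hL : LapRuleStmt) (hρ : 0 < ρ) (hh : 0 < h) (ha : 1 + h ≤ a) (z : ℂ) :
    ContDiffAt ℝ ∞ (gg ρ a h) z ∧
    lap (gg ρ a h) z = (sd ((a - Lg ρ z) / h) / h - sd (1 - Lg ρ z)) * (4 / ‖z‖ ^ 2) ∧
    ‖grad (gg ρ a h) z‖ ^ 2 = (smoothTransition (1 - Lg ρ z) -
      smoothTransition ((a - Lg ρ z) / h)) ^ 2 * (4 / ‖z‖ ^ 2) := by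
  have := comp hL hρ (Th_cd a h) (fun t ht => Th_const hh ha ht) z
  rwa [Th_dd hh, Th_d hh] at this

lemma sd_out {t : ℝ} (hh : 0 < h) (H : sd ((a - t) / h) ≠ 0) : a - h ≤ t ∧ t ≤ a := by
  obtain ⟨h1, h2⟩ := sd_supp H
  rw [div_le_iff₀ hh] at h2
  rw [le_div_iff₀ hh] at h1
  constructor <;> linarith

lemma sd_Kn (hρ : 0 < ρ) (hh : 0 < h) (ha : h ≤ a) (hM : 0 < M) (hb : ∀ t, sd t ≤ M) (z : ℂ) :
    sd ((a - Lg ρ z) / h) * (4 / ‖z‖ ^ 2) ≤ M * Kn ρ (a - h) a z := by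
  by_cases H : sd ((a - Lg ρ z) / h) = 0
  · rw [H, zero_mul]
    exact mul_nonneg hM.le (Kn_nonneg z)
  · rw [Kn_eq hρ (by linarith) (sd_out hh H).1 (sd_out hh H).2]
    exact mul_le_mul_of_nonneg_right (hb _) (by positivity)

lemma sd_off (hρ : 0 < ρ) (hz : z ∉ ball 0 ρ) : sd (1 - Lg ρ z) = 0 := by
  by_contra H
  have h1 : 2 ≤ Lg ρ z := (le_Lg hρ (by norm_num)).2 (by simpa [rr_two] using hz)
  linarith [(sd_supp H).1]

lemma gg_tf (hL : LapRuleStmt) (hρ : 0 < ρ) (hh : 0 < h) (ha : 1 + h ≤ a) (hM : 0 < M)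
    (hb : ∀ t, sd t ≤ M) (hr : rr ρ a < 1 / 2) :
    TF (8 * π * M) (ball 0 (1 / 2)) (ball 0 ρ) (gg ρ a h) := by
  have hs : tsupport (gg ρ a h) ⊆ closedBall 0 (rr ρ a) :=
    closure_minimal (fun z hz => by
      by_contra hn
      exact hz (gg_zero hρ hh ha (le_of_lt (by simpa using hn)))) isClosed_closedBall
  refine ⟨⟨contDiff_iff_contDiffAt.2 fun z => (gg_all hL hρ hh ha z).1,
    (isCompact_closedBall _ _).of_isClosed_subset (isClosed_tsupport _) hs,
    hs.trans (closedBall_subset_ball hr)⟩, gg_nonneg hh ha, ?_, fun z hz => ?_⟩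
  · have i1 := (Kn_int hρ (a - h) a).const_mul (M / h)
    have i2 := (Kn_int hρ (1 - 1) 1).const_mul M
    refine (integral_mono_of_nonneg (.of_forall fun z => abs_nonneg _) (i1.add i2)
      (.of_forall fun z => ?_)).trans_eq ?_
    · have h1 := div_le_div_of_nonneg_right (sd_Kn hρ hh (by linarith : h ≤ a) hM hb z) hh.le
      have h2 := sd_Kn hρ one_pos le_rfl hM hb z
      have h3 : 0 ≤ sd ((a - Lg ρ z) / h) * (4 / ‖z‖ ^ 2) / h := by
        have := sd_nonneg ((a - Lg ρ z) / h)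
        positivity
      have h4 : 0 ≤ sd (1 - Lg ρ z) * (4 / ‖z‖ ^ 2) := by
        have := sd_nonneg (1 - Lg ρ z)
        positivity
      rw [div_one] at h2
      show |lap (gg ρ a h) z| ≤ M / h * Kn ρ (a - h) a z + M * Kn ρ (1 - 1) 1 z
      rw [(gg_all hL hρ hh ha z).2.1, sub_mul, div_mul_eq_mul_div, div_mul_eq_mul_div, abs_le]
      constructor <;> linarith
    · simp only [Pi.add_apply]
      rw [integral_add i1 i2, integral_const_mul, integral_const_mul, Kn_integral hρ (by linarith),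
        Kn_integral hρ (by linarith)]
      field_simp
      ring
  · rw [(gg_all hL hρ hh ha z).2.1, sd_off hρ hz, sub_zero]
    have := sd_nonneg ((a - Lg ρ z) / h)
    positivity

lemma gg_sig (hL : LapRuleStmt) (hρ : 0 < ρ) (hh : 0 < h) (ha : 2 + h ≤ a) :
    ∃ σ : ℂ → ℝ, Continuous σ ∧ (∀ z, 0 ≤ σ z) ∧ (∀ z w, ‖z‖ = ‖w‖ → σ z = σ w) ∧
      tsupport σ ⊆ ball 0 ρ ∧ ∀ z ∈ ball 0 ρ, lap (gg ρ a h) z = -σ z := by
  have hc : Continuous fun z => sd (1 - Lg ρ z) := sd_cont.comp (continuous_const.sub (Lg_cont hρ))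
  refine ⟨fun z => sd (1 - Lg ρ z) * (4 / ‖z‖ ^ 2), continuous_iff_continuousAt.2 fun z => ?_,
    fun z => mul_nonneg (sd_nonneg _) (by positivity), fun z w H => by simp only [Lg, H], ?_,
    fun z hz => ?_⟩
  · rcases lt_or_ge (Lg ρ z) 0 with H | H
    · refine (continuousAt_const (y := (0 : ℝ))).congr ?_
      filter_upwards [(Lg_cont hρ).continuousAt.eventually (gt_mem_nhds H)] with w hw
      have : sd (1 - Lg ρ w) = 0 := by
        by_contra hn
        linarith [(sd_supp hn).2]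
      rw [this, zero_mul]
    · exact hc.continuousAt.mul
        (continuousAt_const.div (by fun_prop) (by simpa using (Lg_ev hρ H).1))
  · refine (closure_minimal (t := closedBall 0 (rr ρ 1)) (fun z hz => ?_)
      isClosed_closedBall).trans (closedBall_subset_ball ?_)
    · have := (sd_supp (left_ne_zero_of_mul hz)).1
      simpa using (Lg_le hρ (by norm_num)).1 (show Lg ρ z ≤ 1 by linarith)
    · simpa [rr_two] using rr_sm hρ one_lt_two
  · have h1 : Lg ρ z < 2 := (Lg_lt hρ (by norm_num)).2 (by simpa [rr_two] using hz)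
    have : sd ((a - Lg ρ z) / h) = 0 := by
      by_contra hn
      linarith [(sd_out hh hn).1]
    rw [(gg_all hL hρ hh (by linarith) z).2.1, this]
    ring

lemma gg_lap_le (hL : LapRuleStmt) (hρ : 0 < ρ) (hh : 0 < h) (ha : 1 + h ≤ a) (hM : 0 < M)
    (hb : ∀ t, sd t ≤ M) (hr : 1 / 4 ≤ rr ρ (a - h)) (hT : 64 * M ≤ T * h ^ 2)
    (hz : z ∉ ball 0 ρ) : lap (gg ρ a h) z ≤ T * gg ρ (a + 2 * h) h z := by
  have hT0 : 0 < T := by
    by_contra hn
    nlinarith [sq_nonneg h]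
  rw [(gg_all hL hρ hh ha z).2.1, sd_off hρ hz, sub_zero]
  by_cases H : sd ((a - Lg ρ z) / h) = 0
  · rw [H, zero_div, zero_mul]
    exact mul_nonneg hT0.le (gg_nonneg hh (by linarith) z)
  · obtain ⟨h1, h2⟩ := sd_out hh H
    have h3 : 1 / 4 ≤ ‖z‖ := hr.trans ((le_Lg hρ (by linarith)).1 h1)
    have h4 : 4 / ‖z‖ ^ 2 ≤ 64 := by
      rw [div_le_iff₀ (by positivity)]
      nlinarith
    have h5 : h ≤ gg ρ (a + 2 * h) h z := by
      have := le_gg (ρ := ρ) hh (by linarith : 1 + h ≤ a + 2 * h) z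
      have := uu_le' h2 (by linarith)
      linarith [show ll ρ z = uu (Lg ρ z) from rfl]
    calc _ ≤ M / h * 64 := mul_le_mul (div_le_div_of_nonneg_right (hb _) hh.le) h4 (by positivity)
          (by positivity)
      _ ≤ T * h := by rw [div_mul_eq_mul_div, div_le_iff₀ hh]; nlinarith
      _ ≤ _ := mul_le_mul_of_nonneg_left h5 hT0.le

lemma gg_grad_le (hL : LapRuleStmt) (hρ : 0 < ρ) (hh : 0 < h) (ha : 1 + h ≤ a) (hW : 0 < W)
    (haW : 1 + W ≤ a) : ∃ Y : ℂ → ℝ, Integrable Y ∧ (∀ z, 0 ≤ Y z) ∧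
      ∫ z, Y z = 4 * π * (a / W + W / h) ∧
      ∀ z, ‖grad (gg ρ a h) z‖ ^ 2 ≤ gg ρ (a + 2 * h) h z * Y z := by
  have i1 := (Kn_int hρ 0 a).div_const W
  have i2 := (Kn_int hρ (a - W) a).div_const h
  have p1 : ∀ z, 0 ≤ Kn ρ 0 a z / W := fun z => div_nonneg (Kn_nonneg z) hW.le
  have p2 : ∀ z, 0 ≤ Kn ρ (a - W) a z / h := fun z => div_nonneg (Kn_nonneg z) hh.le
  refine ⟨fun z => Kn ρ 0 a z / W + Kn ρ (a - W) a z / h, i1.add i2,
    fun z => add_nonneg (p1 z) (p2 z), ?_, fun z => ?_⟩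
  · rw [integral_add i1 i2, integral_div, integral_div, Kn_integral hρ (by linarith),
      Kn_integral hρ (by linarith)]
    ring
  · have g0 := gg_nonneg (ρ := ρ) hh (by linarith : 1 + h ≤ a + 2 * h) z
    have g1 := le_gg (ρ := ρ) hh (by linarith : 1 + h ≤ a + 2 * h) z
    have q1 := p1 z
    have q2 := p2 z
    rw [(gg_all hL hρ hh ha z).2.2]
    by_cases H : 0 ≤ Lg ρ z ∧ Lg ρ z ≤ a
    · have h1 : (smoothTransition (1 - Lg ρ z) - smoothTransition ((a - Lg ρ z) / h)) ^ 2 ≤ 1 := by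
        rw [sq_le_one_iff_abs_le_one, abs_le]
        constructor <;> linarith [smoothTransition.nonneg (1 - Lg ρ z),
          smoothTransition.le_one (1 - Lg ρ z), smoothTransition.nonneg ((a - Lg ρ z) / h),
          smoothTransition.le_one ((a - Lg ρ z) / h)]
      refine (mul_le_of_le_one_left (by positivity) h1).trans ?_
      rcases le_total (Lg ρ z) (a - W) with H' | H'
      · have h2 : W ≤ gg ρ (a + 2 * h) h z := by
          have := uu_le' H' (by linarith)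
          linarith [show ll ρ z = uu (Lg ρ z) from rfl]
        rw [← Kn_eq hρ le_rfl H.1 H.2, ← mul_div_cancel₀ (Kn ρ 0 a z) hW.ne']
        exact mul_le_mul h2 (le_add_of_nonneg_right q2) q1 g0
      · have h2 : h ≤ gg ρ (a + 2 * h) h z := by
          have := uu_le' H.2 (by linarith)
          linarith [show ll ρ z = uu (Lg ρ z) from rfl]
        rw [← Kn_eq hρ (by linarith) H' H.2, ← mul_div_cancel₀ (Kn ρ (a - W) a z) hh.ne']
        exact mul_le_mul h2 (le_add_of_nonneg_left q1) q2 g0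
    · have : smoothTransition (1 - Lg ρ z) = smoothTransition ((a - Lg ρ z) / h) := by
        rcases not_and_or.1 H with H | H
        · rw [smoothTransition.one_of_one_le (by linarith), smoothTransition.one_of_one_le]
          rw [le_div_iff₀ hh]
          linarith
        · rw [smoothTransition.zero_of_nonpos (by linarith), smoothTransition.zero_of_nonpos]
          exact div_nonpos_of_nonpos_of_nonneg (by linarith) hh.le
      rw [this, sub_self, zero_pow two_ne_zero, zero_mul]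
      exact mul_nonneg g0 (add_nonneg q1 q2)

end Pool.Agent.MP_c69980_ag.H88
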