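import Pool.Agent.MP_c69980_ag.H88.SC

/-!
Selection of a ball from a weighted family.
-/

set_option autoImplicit false

noncomputable section

namespace Pool.Agent.MP_c69980_ag.H88

open Real Set Filter Topology MeasureTheory Metric H4
open scoped ENNReal

lemma ton {Ω : Type} [MeasurableSpace Ω] (ω : Measure Ω) [SFinite ω] (μ : Measure ℂ) [SFinite μ]
    {p : Ω → ℝ≥0∞} (hp : Measurable p) {B : Ω → Set ℂ}
    (hB : MeasurableSet {q : Ω × ℂ | q.2 ∈ B q.1}) :
    ∫⁻ i, p i * μ (B i) ∂ω = ∫⁻ z, ∫⁻ i in {i | z ∈ B i}, p i ∂ω ∂μ := by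
  have h1 := lintegral_lintegral_swap (μ := ω) (ν := μ)
    (f := fun i z => indicator {q : Ω × ℂ | q.2 ∈ B q.1} (fun q => p q.1) (i, z))
    ((hp.comp measurable_fst).indicator hB).aemeasurable
  refine Eq.trans (lintegral_congr fun i => ?_) (h1.trans (lintegral_congr fun z => ?_))
  · exact (lintegral_indicator_const (measurable_prodMk_left hB) (p i)).symm
  · exact lintegral_indicator (measurable_prodMk_right hB) p

lemma pick {Ω : Type} [MeasurableSpace Ω] (ω : Measure Ω) [SFinite ω] (μ : Measure ℂ) [SFinite μ]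
    {p : Ω → ℝ≥0∞} (hp : Measurable p) {B : ℕ → Ω → Set ℂ}
    (hB : ∀ t, MeasurableSet {q : Ω × ℂ | q.2 ∈ B t q.1}) {S : Set ℂ}
    {lo up : ℂ → ℝ≥0∞} {A e U : ℝ} {C Λ : ℕ → ℝ} {N : ℕ} (hA : 0 ≤ A) (hΛ : ∀ t, 0 < Λ t)
    (hC : ∀ t, 0 ≤ C t) (h1 : ∀ z, lo z ≤ ∫⁻ i in {i | z ∈ B 1 i}, p i ∂ω)
    (h2 : ∀ t ≤ N, ∀ z, ∫⁻ i in {i | z ∈ B t i}, p i ∂ω ≤ .ofReal (C t) * up z)
    (h3 : .ofReal (3 * A) < ∫⁻ z in S, lo z ∂μ) (h4 : .ofReal e * ∫⁻ i, p i ∂ω ≤ .ofReal A)
    (h5 : ∫⁻ z, up z ∂μ ≤ .ofReal U) (h6 : ∀ t, C t * U ≤ Λ t * (A * (1 / 2) ^ t)) :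
    ∃ i, p i ≠ 0 ∧ .ofReal e ≤ μ (B 1 i ∩ S) ∧
      ∀ t ≤ N, μ (B t i) ≤ .ofReal (Λ t) * μ (B 1 i ∩ S) := by
  by_contra hn
  have hm : ∀ t, Measurable fun i => p i * μ (B t i) := fun t =>
    hp.mul (measurable_measure_prodMk_left (hB t))
  have key : ∀ i, p i * μ.restrict S (B 1 i) ≤ .ofReal e * p i +
      ∑ t ∈ Finset.range (N + 1), .ofReal (Λ t)⁻¹ * (p i * μ (B t i)) := fun i => by
    rw [Measure.restrict_apply (t := B 1 i) (measurable_prodMk_left (hB 1))]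
    by_cases h0 : p i = 0
    · simp [h0]
    by_cases he : .ofReal e ≤ μ (B 1 i ∩ S)
    · obtain ⟨t, ht, h⟩ : ∃ t ≤ N, .ofReal (Λ t) * μ (B 1 i ∩ S) < μ (B t i) := by
        by_contra h
        push Not at h
        exact hn ⟨i, h0, he, h⟩
      refine le_add_left (le_trans ?_ (Finset.single_le_sum (f := fun t =>
        .ofReal (Λ t)⁻¹ * (p i * μ (B t i))) (fun _ _ => zero_le) (Finset.mem_range_succ_iff.2 ht)))
      rw [mul_left_comm]
      refine mul_le_mul_right (le_trans (le_of_eq ?_) (mul_le_mul_right h.le _)) _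
      rw [← mul_assoc, ← ENNReal.ofReal_mul (inv_pos.2 (hΛ t)).le, inv_mul_cancel₀ (hΛ t).ne',
        ENNReal.ofReal_one, one_mul]
    · rw [mul_comm]
      exact le_add_right (mul_le_mul_left (not_le.1 he).le _)
  have k1 := (lintegral_mono h1).trans ((ton ω (μ.restrict S) hp (hB 1)).ge.trans
    (lintegral_mono key))
  rw [lintegral_add_left (hp.const_mul _), lintegral_const_mul _ hp,
    lintegral_finsetSum _ fun t _ => (hm t).const_mul _] at k1
  have k2 : ∀ t ∈ Finset.range (N + 1), ∫⁻ i, .ofReal (Λ t)⁻¹ * (p i * μ (B t i)) ∂ω ≤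
      .ofReal (A * (1 / 2) ^ t) := fun t ht => by
    rw [lintegral_const_mul _ (hm t), ton ω μ hp (hB t)]
    refine (mul_le_mul_right ((lintegral_mono (h2 t (Finset.mem_range_succ_iff.1 ht))).trans
      ((lintegral_const_mul' _ _ ENNReal.ofReal_ne_top).le.trans (mul_le_mul_right h5 _))) _).trans ?_
    rw [← ENNReal.ofReal_mul (hC t), ← ENNReal.ofReal_mul (inv_pos.2 (hΛ t)).le]
    exact ENNReal.ofReal_le_ofReal ((inv_mul_le_iff₀ (hΛ t)).2 (h6 t))
  refine (h3.trans_le (k1.trans (add_le_add h4 (Finset.sum_le_sum k2)))).not_ge ?_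
  rw [← ENNReal.ofReal_sum_of_nonneg fun _ _ => by positivity, ← ENNReal.ofReal_add hA
    (Finset.sum_nonneg fun _ _ => by positivity), ← Finset.mul_sum]
  refine ENNReal.ofReal_le_ofReal ?_
  nlinarith [sum_geometric_two_le (N + 1)]

/-- The doubling constants. -/
def La (η : ℝ) (t : ℕ) : ℝ := 24 * (t ^ 2 + 1) * 2 ^ t / η

/-- The conclusion of the selection. -/
def Sel (μ : Measure ℂ) (S : Set ℂ) (e η : ℝ) (N : ℕ) : Prop :=
  ∃ (c : ℂ) (r : ℝ), 0 < r ∧ ball c (r * N) ⊆ ball 0 (3 / 4) ∧ .ofReal e ≤ μ (ball c r ∩ S) ∧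
    ∀ t ≤ N, μ (ball c (r * t)) ≤ .ofReal (La η t) * μ (ball c r ∩ S)

variable {ρ a h T η ε W : ℝ} {N : ℕ} {S : Set ℂ}

lemma La_pos (hη : 0 < η) (t : ℕ) : 0 < La η t := by unfold La; positivity

lemma La_mul (hη : 0 < η) (t : ℕ) (X : ℝ) :
    La η t * (η * X / 12 * (1 / 2) ^ t) = 2 * (t ^ 2 + 1) * X := by
  rw [La, one_div_pow]
  field_simp
  ring

lemma nat_le_exp {t : ℕ} (ht : t ≤ N) : (t : ℝ) ≤ exp (2 * N / 2) := by
  have : (t : ℝ) ≤ N := by exact_mod_cast ht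
  have := add_one_le_exp (2 * (N : ℝ) / 2)
  linarith

lemma inner (μ : Measure ℂ) [SFinite μ] (hρ : 0 < ρ) (hh : 0 < h) (hη : 0 < η) (hε : 0 < ε)
    (hT : 0 < T) (hN : 1 ≤ N) (hr : rr ρ a ≤ 1 / 2) (ha : ε * a ≤ 2 * T)
    (h5 : ∫⁻ z, .ofReal (a + 2 * h - ll ρ z) ∂μ ≤ .ofReal (2 * T))
    (h3 : .ofReal (η * T / 2) <
      ∫⁻ z in S, indicator {z | ll ρ z ≤ a - 4 * N} (fun z => .ofReal (a - ll ρ z)) z ∂μ) :
    Sel μ S (η * ε / 24) η N := by
  have hN' : (1 : ℝ) ≤ N := by exact_mod_cast hN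
  have hc : Continuous (rr ρ) := by unfold rr; fun_prop
  have key := pick (volume : Measure ℝ) μ
    (p := indicator (Ioo 0 (a - 2 * N)) 1) (measurable_one.indicator measurableSet_Ioo)
    (B := fun t s => ball 0 (rr ρ s * t)) (S := S) (A := η * T / 12) (e := η * ε / 24)
    (lo := fun z => .ofReal (1 / 2) *
      indicator {z | ll ρ z ≤ a - 4 * N} (fun z => .ofReal (a - ll ρ z)) z)
    (C := fun _ => 1) (Λ := La η) (N := N)
    (fun t => (isOpen_lt (f := fun q : ℝ × ℂ => dist q.2 0) (g := fun q => rr ρ q.1 * t)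
      (by fun_prop) (by fun_prop)).measurableSet) (by positivity) (La_pos hη)
    (fun _ => zero_le_one) (fun z => ?_) (fun t ht z => ?_) ?_ ?_ h5 fun t => ?_
  · obtain ⟨s, s1, s2, s3⟩ := key
    have s4 : s < a - 2 * N := (mem_of_indicator_ne_zero s1).2
    refine ⟨0, rr ρ s, rr_pos hρ s, ball_subset_ball ?_, by simpa using s2, by simpa using s3⟩
    have := mul_le_mul_of_nonneg_left (nat_le_exp (le_refl N)) (rr_pos hρ s).le
    rw [← rr_add] at this
    linarith [(rr_sm hρ).monotone (show s + 2 * N ≤ a by linarith)]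
  · by_cases hz : ll ρ z ≤ a - 4 * N
    · rw [indicator_of_mem (s := {z | ll ρ z ≤ a - 4 * N}) hz, ← ENNReal.ofReal_mul (by norm_num)]
      have h0 : 0 ≤ ll ρ z := uu_nonneg _
      calc _ ≤ volume (Ioo (ll ρ z) (a - 2 * N)) := by
            rw [Real.volume_Ioo]
            exact ENNReal.ofReal_le_ofReal (by linarith)
        _ = ∫⁻ s in Ioo (ll ρ z) (a - 2 * N), indicator (Ioo 0 (a - 2 * N)) 1 s := by
            rw [← setLIntegral_one]
            exact setLIntegral_congr_fun measurableSet_Ioo fun s hs =>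
              (indicator_of_mem (show s ∈ Ioo _ _ from ⟨h0.trans_lt hs.1, hs.2⟩) 1).symm
        _ ≤ _ := lintegral_mono_set fun s hs => by
            simpa using (Lg_lt hρ (by linarith [hs.1])).1 ((le_uu _).trans_lt hs.1)
    · simp [indicator_of_notMem (s := {z | ll ρ z ≤ a - 4 * N}) hz]
  · rw [ENNReal.ofReal_one, one_mul, lintegral_indicator_one measurableSet_Ioo,
      Measure.restrict_apply measurableSet_Ioo]
    calc _ ≤ volume (Ioo (ll ρ z - 2 * N) (a - 2 * N)) := measure_mono fun s hs => ⟨?_, hs.1.2⟩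
      _ ≤ _ := by
            rw [Real.volume_Ioo]
            exact ENNReal.ofReal_le_ofReal (by linarith)
    have h1 : ‖z‖ < rr ρ s * t := by simpa using hs.2
    have h2 := mul_le_mul_of_nonneg_left (nat_le_exp ht) (rr_pos hρ s).le
    rw [← rr_add] at h2
    have h3 := (Lg_lt hρ (by linarith [hs.1.1])).2 (h1.trans_le h2)
    rcases le_total (Lg ρ z) 1 with H | H
    · linarith [uu_le H, hs.1.1, show ll ρ z = uu (Lg ρ z) from rfl]
    · linarith [uu_eq H, show ll ρ z = uu (Lg ρ z) from rfl]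
  · rw [lintegral_const_mul' _ _ ENNReal.ofReal_ne_top,
      show 3 * (η * T / 12) = 1 / 2 * (η * T / 2) by ring, ENNReal.ofReal_mul (by norm_num)]
    exact ENNReal.mul_lt_mul_right (by simp) ENNReal.ofReal_ne_top h3
  · rw [lintegral_indicator_one measurableSet_Ioo, Real.volume_Ioo,
      ← ENNReal.ofReal_mul (by positivity)]
    refine ENNReal.ofReal_le_ofReal ?_
    nlinarith [mul_le_mul_of_nonneg_left ha hη.le, mul_pos hη hε]
  · rw [La_mul hη]
    nlinarith [sq_nonneg (t : ℝ)]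

lemma near {z c : ℂ} (hρ : 0 < ρ) (hh : 0 < h) (h1 : h ≤ 1) (H : ‖z - c‖ ≤ h / 8 * ‖c‖) :
    Lg ρ z ≤ Lg ρ c + h / 2 ∧ Lg ρ c ≤ Lg ρ z + h / 2 := by
  have e := add_one_le_exp (h / 2 / 2)
  have a1 := norm_le_norm_add_norm_sub' z c
  have a2 := norm_le_norm_add_norm_sub z c
  have a3 := norm_nonneg z
  have a4 := norm_nonneg c
  constructor <;> refine Lg_le_add hρ (by linarith) ?_
  · nlinarith [mul_le_mul_of_nonneg_left e a4]
  · have a5 : (1 - h / 8) * ‖c‖ ≤ ‖z‖ := by linarith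
    have a6 := mul_le_mul_of_nonneg_right a5 (show 0 ≤ h / 2 / 2 + 1 by linarith)
    have a7 : 0 ≤ h * (1 - h / 4) * ‖c‖ := mul_nonneg (mul_nonneg hh.le (by linarith)) a4
    nlinarith [mul_le_mul_of_nonneg_left e a3]

lemma vol_ball (z : ℂ) {r : ℝ} (hr : 0 ≤ r) : volume (ball z r) = .ofReal (π * r ^ 2) := by
  rw [Complex.volume_ball, mul_comm π, ENNReal.ofReal_mul (by positivity), ENNReal.ofReal_pow hr,
    ← NNReal.coe_real_pi, ENNReal.ofReal_coe_nnreal]

lemma outer (μ : Measure ℂ) [SFinite μ] (hρ : 0 < ρ) (hh : 0 < h) (hh1 : h ≤ 1) (hη : 0 < η)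
    (hε : 0 < ε) (hT : 0 < T) (hN : 1 ≤ N) (hr : rr ρ (a + h) ≤ 1 / 2) (ha : 4 * N + 3 ≤ a)
    (hQ : 32 * N ^ 2 * (4 * N + 2) * ε ≤ T * h ^ 2 * rr ρ (a - 4 * N - 1) ^ 2)
    (h5 : ∫⁻ z, .ofReal (a + 2 * h - ll ρ z) ∂μ ≤ .ofReal (2 * T))
    (h3 : .ofReal (η * T / 2) <
      ∫⁻ z in S, indicator {z | a - 4 * N < ll ρ z} (fun z => .ofReal (a - ll ρ z)) z ∂μ) :
    Sel μ S (η * ε / 24) η N := by
  have hN' : (1 : ℝ) ≤ N := by exact_mod_cast hN
  have r0 := rr_pos hρ (a - 4 * N - 1)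
  have r1 : rr ρ (a - 4 * N - 1) ≤ 1 / 2 := ((rr_sm hρ).monotone (by linarith)).trans hr
  obtain ⟨δ, hδ⟩ : ∃ δ, δ = h * rr ρ (a - 4 * N - 1) / (8 * N) := ⟨_, rfl⟩
  have δ0 : 0 < δ := by rw [hδ]; positivity
  have δ1 : δ * N = h / 8 * rr ρ (a - 4 * N - 1) := by rw [hδ]; field_simp
  have hb : ∀ (z : ℂ) (r : ℝ), {c | z ∈ ball c r} = ball z r := fun z r => by
    ext c
    exact mem_ball_comm
  have hn : ∀ {z c : ℂ} {t : ℕ}, t ≤ N → ‖z - c‖ < δ * t → a - 4 * N - 1 ≤ Lg ρ c →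
      Lg ρ z ≤ Lg ρ c + h / 2 ∧ Lg ρ c ≤ Lg ρ z + h / 2 := fun {z c t} ht h1 h2 => by
    have : δ * t ≤ δ * N := mul_le_mul_of_nonneg_left (by exact_mod_cast ht) δ0.le
    have := mul_le_mul_of_nonneg_left ((le_Lg hρ (by linarith)).1 h2) (show 0 ≤ h / 8 by linarith)
    exact near hρ hh hh1 (by linarith)
  have hp : ∀ c, indicator {c | a - 4 * N - 1 ≤ Lg ρ c} (fun c => ENNReal.ofReal (a + h - Lg ρ c)) c
      ≠ 0 → a - 4 * N - 1 ≤ Lg ρ c ∧ ‖c‖ < 1 / 2 := fun c hc => by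
    have h1 := mem_of_indicator_ne_zero hc
    rw [indicator_of_mem h1, ne_eq, ENNReal.ofReal_eq_zero, not_le] at hc
    exact ⟨h1, ((Lg_lt hρ (by linarith)).1 (by linarith)).trans_le hr⟩
  have key := pick (volume : Measure ℂ) μ
    (p := indicator {c | a - 4 * N - 1 ≤ Lg ρ c} fun c => .ofReal (a + h - Lg ρ c))
    ((continuous_const.sub (Lg_cont hρ)).measurable.ennreal_ofReal.indicator
      (isClosed_le continuous_const (Lg_cont hρ)).measurableSet)
    (B := fun t c => ball c (δ * t)) (S := S) (A := η * (π * δ ^ 2 * T) / 12) (e := η * ε / 24)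
    (lo := fun z => .ofReal (π * δ ^ 2) *
      indicator {z | a - 4 * N < ll ρ z} (fun z => .ofReal (a - ll ρ z)) z)
    (C := fun t => π * (δ * t) ^ 2) (Λ := La η) (N := N)
    (fun t => (isOpen_lt (f := fun q : ℂ × ℂ => dist q.2 q.1) (g := fun _ => δ * t)
      (by fun_prop) (by fun_prop)).measurableSet) (by positivity) (La_pos hη)
    (fun _ => by positivity) (fun z => ?_) (fun t ht z => ?_) ?_ ?_ h5 fun t => ?_
  · obtain ⟨c, s1, s2, s3⟩ := key
    refine ⟨c, δ, δ0, ball_subset_ball' ?_, by simpa using s2, by simpa using s3⟩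
    rw [dist_zero_right, δ1]
    nlinarith [(hp c s1).2]
  · by_cases hz : a - 4 * N < ll ρ z
    · have e : ll ρ z = Lg ρ z := uu_eq (by
        by_contra H
        linarith [uu_le (not_le.1 H).le, show ll ρ z = uu (Lg ρ z) from rfl])
      rw [indicator_of_mem (s := {z | a - 4 * N < ll ρ z}) hz, hb, Nat.cast_one, mul_one,
        ← vol_ball z δ0.le, mul_comm, ← setLIntegral_const]
      refine setLIntegral_mono' measurableSet_ball fun c hc => ?_
      obtain ⟨k1, k2⟩ := hn (z := c) (c := z) hN (by simpa [dist_eq_norm] using hc) (by linarith)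
      rw [indicator_of_mem (s := {c | a - 4 * N - 1 ≤ Lg ρ c})
        (show a - 4 * N - 1 ≤ Lg ρ c by linarith)]
      exact ENNReal.ofReal_le_ofReal (by linarith)
    · simp [indicator_of_notMem (s := {z | a - 4 * N < ll ρ z}) hz]
  · rw [hb, ← vol_ball z (by positivity), mul_comm (volume _), ← setLIntegral_const]
    refine setLIntegral_mono' measurableSet_ball fun c hc => ?_
    by_cases h1 : a - 4 * N - 1 ≤ Lg ρ c
    · obtain ⟨k1, k2⟩ := hn (z := z) ht (by simpa [dist_eq_norm, norm_sub_rev] using hc) h1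
      have e : ll ρ z = Lg ρ z := uu_eq (by linarith)
      rw [indicator_of_mem (s := {c | a - 4 * N - 1 ≤ Lg ρ c}) h1]
      exact ENNReal.ofReal_le_ofReal (by linarith)
    · rw [indicator_of_notMem (s := {c | a - 4 * N - 1 ≤ Lg ρ c}) h1]
      exact zero_le
  · rw [lintegral_const_mul' _ _ ENNReal.ofReal_ne_top]
    refine lt_of_le_of_lt ?_ (ENNReal.mul_lt_mul_right (by simpa using by positivity)
      ENNReal.ofReal_ne_top h3)
    rw [← ENNReal.ofReal_mul (by positivity)]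
    refine ENNReal.ofReal_le_ofReal ?_
    nlinarith [show 0 < η * (π * δ ^ 2 * T) by positivity]
  · refine (mul_le_mul_right (lintegral_mono
      (g := indicator (ball 0 1) fun _ => .ofReal (4 * N + 2)) fun c => ?_) _).trans ?_
    · by_cases h0 : indicator {c | a - 4 * N - 1 ≤ Lg ρ c}
        (fun c => ENNReal.ofReal (a + h - Lg ρ c)) c = 0
      · rw [h0]
        exact zero_le
      · obtain ⟨k1, k2⟩ := hp c h0
        rw [indicator_of_mem (s := {c | a - 4 * N - 1 ≤ Lg ρ c}) k1,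
          indicator_of_mem (show c ∈ ball 0 1 by simpa using by linarith)]
        exact ENNReal.ofReal_le_ofReal (by linarith)
    · rw [lintegral_indicator_const measurableSet_ball, vol_ball _ zero_le_one,
        ← ENNReal.ofReal_mul (by positivity), ← ENNReal.ofReal_mul (by positivity)]
      refine ENNReal.ofReal_le_ofReal ?_
      have k1 : (4 * N + 2) * ε / 2 ≤ δ ^ 2 * T := by
        refine le_of_mul_le_mul_left ?_ (show (0 : ℝ) < 64 * N ^ 2 by positivity)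
        have : 64 * (N : ℝ) ^ 2 * (δ ^ 2 * T) = 64 * (δ * N) ^ 2 * T := by ring
        rw [this, δ1]
        linarith
      nlinarith [mul_le_mul_of_nonneg_left k1 (show 0 ≤ η * π by positivity)]
  · rw [La_mul hη]
    nlinarith [show 0 < π * δ ^ 2 * T by positivity]

lemma select (μ : Measure ℂ) [SFinite μ] (hρ : 0 < ρ) (hh : 0 < h) (hh1 : h ≤ 1) (hη : 0 < η)
    (hε : 0 < ε) (hN : 1 ≤ N) (hr0 : 1 / 4 ≤ rr ρ a) (hr : rr ρ (a + h) ≤ 1 / 2)
    (ha : 4 * N + 3 ≤ a) (ha' : ε * a ≤ 2 * T)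
    (hQ : 512 * N ^ 2 * (4 * N + 2) * ε * exp (4 * N + 1) ≤ T * h ^ 2)
    (h5 : ∫⁻ z, .ofReal (a + 2 * h - ll ρ z) ∂μ ≤ .ofReal (2 * T))
    (h3 : .ofReal (η * T) < ∫⁻ z in S, .ofReal (a - ll ρ z) ∂μ) : Sel μ S (η * ε / 24) η N := by
  have hT : 0 < T := by nlinarith [show 0 < ε * a from mul_pos hε (by linarith [(Nat.cast_nonneg N : (0 : ℝ) ≤ N)])]
  by_contra hn
  have k1 := not_lt.1 fun H => hn (inner μ hρ hh hη hε hT hN
    (((rr_sm hρ).monotone (by linarith)).trans hr) ha' h5 H)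
  have k2 := not_lt.1 fun H => hn (outer μ hρ hh hh1 hη hε hT hN hr ha ?_ h5 H)
  · refine h3.not_ge (le_trans (lintegral_mono fun z => ?_)
      ((lintegral_add_left ?_ _).le.trans ((add_le_add k1 k2).trans_eq ?_)))
    · by_cases hz : ll ρ z ≤ a - 4 * N
      · rw [indicator_of_mem (s := {z | ll ρ z ≤ a - 4 * N}) hz]
        exact le_self_add
      · rw [indicator_of_mem (s := {z | a - 4 * N < ll ρ z}) (not_le.1 hz)]
        exact le_add_self
    · exact (continuous_const.sub (ll_cont hρ)).measurable.ennreal_ofReal.indicator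
        (isClosed_le (ll_cont hρ) continuous_const).measurableSet
    · rw [← ENNReal.ofReal_add (by positivity) (by positivity), add_halves]
  · have e := rr_add ρ (a - 4 * N - 1) (4 * N + 1)
    rw [show a - 4 * N - 1 + (4 * N + 1) = a by ring] at e
    have e2 : 1 / 16 ≤ rr ρ (a - 4 * N - 1) ^ 2 * exp (4 * N + 1) := by
      rw [← add_halves (4 * (N : ℝ) + 1), exp_add]
      nlinarith
    refine le_of_mul_le_mul_right ?_ (exp_pos (4 * N + 1))
    nlinarith [mul_le_mul_of_nonneg_left e2 (show 0 ≤ T * h ^ 2 by positivity)]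

end Pool.Agent.MP_c69980_ag.H88
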