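import Pool.Agent.MP_c69980_ag.H88.SD

/-!
The characteristic function of a density and a regular level for it.
-/

set_option autoImplicit false

noncomputable section

namespace Pool.Agent.MP_c69980_ag.H88

open Real Set Filter Topology MeasureTheory Metric H4
open scoped ENNReal

/-- The truncated density. -/
def dn (ν : ℂ → ℝ) : ℂ → ℝ≥0∞ := indicator (ball 0 (3 / 4)) fun z => .ofReal (ν z)

/-- The truncated measure. -/
def ms (ν : ℂ → ℝ) : Measure ℂ := volume.withDensity (dn ν)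

/-- The characteristic function. -/
def ta (ν : ℂ → ℝ) (ρ x : ℝ) : ℝ := ∫ z, max (x - ll ρ z) 0 ∂ms ν

variable {ν g : ℂ → ℝ} {ρ x y ε : ℝ} {S : Set ℂ}

lemma dn_ae (hν : Den (ball 0 1) ν) : AEMeasurable (dn ν) :=
  (aemeasurable_indicator_iff measurableSet_ball).2 ((hν.1.mono
    (ball_subset_ball (by norm_num))).aemeasurable measurableSet_ball).ennreal_ofReal

lemma ms_fin (hν : Den (ball 0 1) ν) : IsFiniteMeasure (ms ν) := by
  refine isFiniteMeasure_withDensity ?_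
  rw [dn, lintegral_indicator measurableSet_ball]
  exact (((hν.1.mono (closedBall_subset_ball (by norm_num))).integrableOn_compact
    (isCompact_closedBall _ _)).mono_set ball_subset_closedBall).lintegral_lt_top.ne

lemma ms_eq (hS : MeasurableSet S) (h : S ⊆ ball 0 (3 / 4)) : ms ν S = mu ν S := by
  rw [ms, withDensity_apply _ hS, mu]
  exact setLIntegral_congr_fun hS fun z hz => indicator_of_mem (h hz) _

lemma ms_lin (hν : Den (ball 0 1) ν) (hg : Continuous g) (h0 : ∀ z, 0 ≤ g z)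
    (hs : ∀ z, 1 / 2 ≤ ‖z‖ → g z = 0) (hS : MeasurableSet S) :
    mu (fun z => g z * ν z) S = ∫⁻ z in S, .ofReal (g z) ∂ms ν := by
  rw [ms, setLIntegral_withDensity_eq_lintegral_mul₀ (dn_ae hν)
    hg.measurable.ennreal_ofReal.aemeasurable hS, mu]
  refine lintegral_congr fun z => ?_
  by_cases hz : z ∈ ball 0 (3 / 4)
  · rw [Pi.mul_apply, dn, indicator_of_mem hz, ENNReal.ofReal_mul (h0 z), mul_comm]
  · simp [hs z (by rw [mem_ball_zero_iff] at hz; linarith)]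

lemma ms_int (hν : Den (ball 0 1) ν) (hs : ∀ z, 1 / 2 ≤ ‖z‖ → g z = 0) :
    ∫ z, ν z * g z = ∫ z, g z ∂ms ν := by
  rw [ms, integral_withDensity_eq_integral_toReal_smul₀ (dn_ae hν) (ae_of_all _ fun z =>
    (indicator_le_self _ _ z).trans_lt ENNReal.ofReal_lt_top)]
  refine integral_congr_ae (ae_of_all _ fun z => ?_)
  by_cases hz : z ∈ ball 0 (3 / 4)
  · simp only [dn, indicator_of_mem hz, smul_eq_mul,
      ENNReal.toReal_ofReal (hν.2 z (ball_subset_ball (by norm_num) hz))]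
  · simp [hs z (by rw [mem_ball_zero_iff] at hz; linarith)]

lemma mx_cont (hρ : 0 < ρ) (x : ℝ) : Continuous fun z => max (x - ll ρ z) 0 :=
  (continuous_const.sub (ll_cont hρ)).max continuous_const

lemma mx_le (H : x ≤ y) (z : ℂ) : ‖max (x - ll ρ z) 0‖ ≤ |y| := by
  rw [norm_of_nonneg (le_max_right _ _)]
  exact max_le (by linarith [le_abs_self y, show 0 ≤ ll ρ z from uu_nonneg _]) (abs_nonneg _)

lemma mx_int (hν : Den (ball 0 1) ν) (hρ : 0 < ρ) (x : ℝ) :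
    Integrable (fun z => max (x - ll ρ z) 0) (ms ν) :=
  have := ms_fin hν
  .of_bound (mx_cont hρ x).aestronglyMeasurable _ (ae_of_all _ (mx_le le_rfl))

lemma ta_nonneg : 0 ≤ ta ν ρ x := integral_nonneg fun _ => le_max_right _ _

lemma ta_mono (hν : Den (ball 0 1) ν) (hρ : 0 < ρ) (H : x ≤ y) : ta ν ρ x ≤ ta ν ρ y :=
  integral_mono (mx_int hν hρ x) (mx_int hν hρ y) fun _ => max_le_max_right _ (by linarith)

lemma ta_cont (hν : Den (ball 0 1) ν) (hρ : 0 < ρ) : ContinuousOn (ta ν ρ) (Icc x y) :=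
  have := ms_fin hν
  continuousOn_of_dominated (fun x _ => (mx_cont hρ x).aestronglyMeasurable)
    (fun _ hx => ae_of_all _ (mx_le hx.2)) (integrable_const _)
    (ae_of_all _ fun _ => by fun_prop)

lemma ta_lin (hν : Den (ball 0 1) ν) (hρ : 0 < ρ) (x : ℝ) :
    ∫⁻ z, .ofReal (x - ll ρ z) ∂ms ν = .ofReal (ta ν ρ x) := by
  rw [ta, ofReal_integral_eq_lintegral_ofReal (mx_int hν hρ x)
    (ae_of_all _ fun _ => le_max_right _ _)]
  exact lintegral_congr fun z => by simp [ENNReal.ofReal_max]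

lemma ta_ge (hν : Den (ball 0 1) ν) (hρ : 0 < ρ) (hr : rr ρ 8 ≤ 1 / 4) (hε : 0 < ε)
    (hm : .ofReal ε ≤ mu ν (ball 0 (16 * ρ))) : ε * (x - 8) ≤ ta ν ρ x := by
  have h1 : 16 * ρ ≤ rr ρ 8 := by
    have h := exp_one_gt_d9.le
    have : (2.7 : ℝ) ^ 3 ≤ exp 1 ^ 3 := pow_le_pow_left₀ (by norm_num) (by linarith) 3
    rw [rr, show ((8 : ℝ) - 2) / 2 = (3 : ℕ) * 1 by norm_num, exp_nat_mul]
    nlinarith
  rw [← ms_eq measurableSet_ball (ball_subset_ball (by linarith))] at hm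
  rw [← ENNReal.ofReal_le_ofReal_iff ta_nonneg, ← ta_lin hν hρ, ENNReal.ofReal_mul hε.le]
  refine (mul_le_mul_left hm _).trans (le_trans ?_ (setLIntegral_le_lintegral (ball 0 (16 * ρ)) _))
  rw [mul_comm, ← setLIntegral_const]
  refine setLIntegral_mono' measurableSet_ball fun z hz => ENNReal.ofReal_le_ofReal ?_
  have := uu_le' ((Lg_le hρ (by norm_num)).2 ((mem_ball_zero_iff.1 hz).le.trans h1)) (by norm_num)
  exact sub_le_sub_left this _

lemma borel {τ : ℝ → ℝ} (hc : ContinuousOn τ (Icc y (y + 1))) (h0 : 0 < τ y) (hn : ∀ x, 0 ≤ τ x) :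
    ∃ x h, y ≤ x ∧ 0 < h ∧ x + 100 * h = y + 1 ∧ τ (x + 5 * h) ≤ 2 * τ x ∧
      τ y ≤ 10000 * (τ x * h ^ 2) := by
  obtain ⟨x, ⟨x1, x2⟩, hx⟩ := isCompact_Icc.exists_isMaxOn (nonempty_Icc.2 (by linarith))
    (hc.mul (g := fun x => (y + 1 - x) ^ 2) (by fun_prop))
  have k1 : τ y * (y + 1 - y) ^ 2 ≤ τ x * (y + 1 - x) ^ 2 := hx ⟨le_rfl, by linarith⟩
  obtain ⟨h, e⟩ : ∃ h, y + 1 - x = 100 * h := ⟨(y + 1 - x) / 100, by ring⟩
  have hh : 0 < h := by
    by_contra H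
    rw [e, show h = 0 by linarith] at k1
    linarith
  have k2 : τ (x + 5 * h) * (y + 1 - (x + 5 * h)) ^ 2 ≤ τ x * (y + 1 - x) ^ 2 :=
    hx ⟨by linarith, by linarith⟩
  rw [show y + 1 - (x + 5 * h) = 95 * h by linarith] at k2
  rw [e] at k1 k2
  refine ⟨x, h, x1, hh, by linarith, le_of_mul_le_mul_right ?_ (pow_pos hh 2), by linarith⟩
  have k3 := mul_nonneg (hn x) (sq_nonneg h)
  nlinarith

/-- The level of the circle of radius `1 / 4`. -/
def lv (ρ : ℝ) : ℝ := 2 - 2 * log (4 * ρ)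

lemma rr_lv (hρ : 0 < ρ) : rr ρ (lv ρ) = 1 / 4 := by
  rw [rr, lv, show (2 - 2 * log (4 * ρ) - 2) / 2 = -log (4 * ρ) by ring, exp_neg,
    exp_log (by positivity)]
  field_simp

/-- A regular level `x` with step `h`. -/
def Reg (ν : ℂ → ℝ) (ρ ε x h T : ℝ) : Prop :=
  lv ρ ≤ x ∧ h ≤ 1 / 100 ∧ 1 / 4 ≤ rr ρ x ∧ rr ρ (x + 5 * h) < 1 / 2 ∧ T = ta ν ρ x ∧
    ta ν ρ (x + 5 * h) ≤ 2 * T ∧ ε * (lv ρ - 8) ≤ 10000 * (T * h ^ 2) ∧ ε * (x + 3 * h) ≤ 2 * T

lemma reg (hν : Den (ball 0 1) ν) (hρ : 0 < ρ) (hε : 0 < ε)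
    (hm : .ofReal ε ≤ mu ν (ball 0 (16 * ρ))) :
    ∃ x h T, 2 ≤ x ∧ 0 < h ∧ 0 < T ∧ (17 ≤ lv ρ → Reg ν ρ ε x h T) := by
  by_cases H : 17 ≤ lv ρ
  swap
  · exact ⟨2, 1, 1, le_rfl, one_pos, one_pos, fun h => absurd h H⟩
  have hr : rr ρ 8 ≤ 1 / 4 := rr_lv hρ ▸ (rr_sm hρ).monotone (by linarith)
  have k1 := ta_ge (x := lv ρ) hν hρ hr hε hm
  have k0 : 0 < ta ν ρ (lv ρ) := (mul_pos hε (by linarith)).trans_le k1
  obtain ⟨x, h, x1, hh, e, k2, k3⟩ := borel (ta_cont hν hρ) k0 fun _ => ta_nonneg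
  have k4 := ta_ge (x := x) hν hρ hr hε hm
  refine ⟨x, h, _, by linarith, hh, k0.trans_le (ta_mono hν hρ x1), fun _ => ⟨x1, by linarith,
    rr_lv hρ ▸ (rr_sm hρ).monotone x1, ?_, rfl, k2, by linarith, by
      nlinarith [mul_le_mul_of_nonneg_left (show x + 3 * h ≤ 2 * (x - 8) by linarith) hε.le]⟩⟩
  refine ((rr_sm hρ).monotone (show x + 5 * h ≤ lv ρ + 1 by linarith)).trans_lt ?_
  have h1 := exp_one_lt_d9
  rw [← add_halves 1, exp_add] at h1
  rw [rr_add, rr_lv hρ]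
  nlinarith [exp_pos (1 / 2)]

end Pool.Agent.MP_c69980_ag.H88
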